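import Mathlib

/-!
# Counting dimensions
-/

namespace H13SB

/-- If `W`, `N` are subspaces of `Z` on which `B` is negative definite, resp. positive definite,
`R` is contained in the radical of `B` on `Z`, `E` is injective on `Z` and `C` is a complement of
a subspace containing `E Z`, then the dimensions add up to at most the dimension of the target. -/
theorem count {V F : Type*} [AddCommGroup V] [Module ℝ V] [AddCommGroup F] [Module ℝ F]
    [FiniteDimensional ℝ F] (Z : Submodule ℝ V) (B : V →ₗ[ℝ] V →ₗ[ℝ] ℝ) (E : V →ₗ[ℝ] F)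
    (hE : ∀ z ∈ Z, E z = 0 → z = 0)
    (W N R : Submodule ℝ V) (hW : W ≤ Z) (hN : N ≤ Z) (hR : R ≤ Z)
    (hW' : ∀ w ∈ W, w ≠ 0 → B w w < 0) (hN' : ∀ w ∈ N, w ≠ 0 → 0 < B w w)
    (hR' : ∀ r ∈ R, ∀ z ∈ Z, B r z = 0 ∧ B z r = 0)
    (C : Submodule ℝ F) (hC : ∀ z ∈ Z, E z ∈ C → E z = 0) :
    Module.finrank ℝ W + Module.finrank ℝ N + Module.finrank ℝ R + Module.finrank ℝ C ≤
      Module.finrank ℝ F := by
  have hinj : ∀ w ∈ W, ∀ n ∈ N, ∀ r ∈ R, ∀ c ∈ C, E (w + n + r) + c = 0 →
      w = 0 ∧ n = 0 ∧ r = 0 ∧ c = 0 := by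
    intro w hw n hn r hr c hc h
    have hz : w + n + r ∈ Z := Z.add_mem (Z.add_mem (hW hw) (hN hn)) (hR hr)
    have h1 : E (w + n + r) ∈ C := by
      have : E (w + n + r) = -c := eq_neg_of_add_eq_zero_left h
      rw [this]
      exact C.neg_mem hc
    have h2 := hC _ hz h1
    have h3 := hE _ hz h2
    have hc0 : c = 0 := by
      rw [h2, zero_add] at h
      exact h
    have hw' : w = -(n + r) := by
      rw [add_assoc] at h3
      exact eq_neg_of_add_eq_zero_left h3
    have hB : B w w = B n n := by
      rw [hw']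
      simp only [map_neg, map_add, LinearMap.neg_apply, LinearMap.add_apply]
      rw [(hR' r hr n (hN hn)).1, (hR' r hr n (hN hn)).2, (hR' r hr r (hR hr)).1]
      ring
    have hw0 : w = 0 := by
      by_contra hne
      have h4 := hW' w hw hne
      by_cases hn0 : n = 0
      · rw [hn0] at hB
        simp only [map_zero] at hB
        linarith
      · have h5 := hN' n hn hn0
        linarith
    have hn0 : n = 0 := by
      by_contra hne
      have h5 := hN' n hn hne
      rw [hw0] at hB
      simp only [map_zero] at hB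
      linarith
    have hr0 : r = 0 := by
      rw [hw0, hn0] at h3
      simpa using h3
    exact ⟨hw0, hn0, hr0, hc0⟩
  let Φ : (W × N × R × C) →ₗ[ℝ] F :=
    (E.comp W.subtype).coprod ((E.comp N.subtype).coprod ((E.comp R.subtype).coprod C.subtype))
  have hΦ : Function.Injective Φ := by
    rw [← LinearMap.ker_eq_bot, LinearMap.ker_eq_bot']
    rintro ⟨w, n, r, c⟩ h
    have h' : E ((w : V) + n + r) + (c : F) = 0 := by
      have h0 : E (w : V) + (E (n : V) + (E (r : V) + (c : F))) = 0 := h
      rw [map_add, map_add]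
      rw [← h0]
      abel
    obtain ⟨a1, a2, a3, a4⟩ := hinj w w.2 n n.2 r r.2 c c.2 h'
    simp only [Prod.mk_eq_zero]
    exact ⟨Subtype.ext a1, Subtype.ext a2, Subtype.ext a3, Subtype.ext a4⟩
  have f1 : FiniteDimensional ℝ (W × N × R × C) := FiniteDimensional.of_injective Φ hΦ
  have fW : FiniteDimensional ℝ W :=
    FiniteDimensional.of_injective (LinearMap.inl ℝ W (N × R × C)) LinearMap.inl_injective
  have f2 : FiniteDimensional ℝ (N × R × C) :=
    FiniteDimensional.of_injective (LinearMap.inr ℝ W (N × R × C)) LinearMap.inr_injective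
  have fN : FiniteDimensional ℝ N :=
    FiniteDimensional.of_injective (LinearMap.inl ℝ N (R × C)) LinearMap.inl_injective
  have f3 : FiniteDimensional ℝ (R × C) :=
    FiniteDimensional.of_injective (LinearMap.inr ℝ N (R × C)) LinearMap.inr_injective
  have fR : FiniteDimensional ℝ R :=
    FiniteDimensional.of_injective (LinearMap.inl ℝ R C) LinearMap.inl_injective
  have h := LinearMap.finrank_le_finrank_of_injective hΦ
  rw [Module.finrank_prod, Module.finrank_prod, Module.finrank_prod] at h
  omega

/-- A subspace of `Z` has dimension at most that of the target. -/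
theorem finrank_le_of_inj {V F : Type*} [AddCommGroup V] [Module ℝ V] [AddCommGroup F]
    [Module ℝ F] [FiniteDimensional ℝ F] (Z : Submodule ℝ V) (E : V →ₗ[ℝ] F)
    (hE : ∀ z ∈ Z, E z = 0 → z = 0) (W : Submodule ℝ V) (hW : W ≤ Z) :
    Module.finrank ℝ W ≤ Module.finrank ℝ F := by
  apply LinearMap.finrank_le_finrank_of_injective (f := E.comp W.subtype)
  rw [← LinearMap.ker_eq_bot, LinearMap.ker_eq_bot']
  intro w h
  exact Subtype.ext (hE _ (hW w.2) h)

end H13SB
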