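import Pool.Agent.H13.SB.Sig.Base

/-!
# Existence of cocycles with given values on the generators
-/

namespace H13SB

variable {h n : ℕ} {T : SurfaceGroup h →* Module.End ℝ (Gen n → ℝ)}

theorem exist_lets_lift {G : Type*} [Group G] (h : ℕ) (f : Gen h → G) :
    ((lets h).map (fun s => if s.2 then f s.1 else (f s.1)⁻¹)).prod =
      FreeGroup.lift f (surfRel h) := by
  rw [lets, surfRel, List.map_flatten, List.prod_flatten, map_list_prod, List.map_map,
    List.map_ofFn, List.map_ofFn]
  refine congrArg (fun l => (List.ofFn l).prod) ?_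
  funext i
  simp [cm, mul_assoc]

theorem exist_mk_rel (h : ℕ) :
    FreeGroup.lift (fun y : Gen h => (sgen y : SurfaceGroup h)) (surfRel h) = 1 := by
  have h1 : FreeGroup.lift (fun y : Gen h => (sgen y : SurfaceGroup h)) =
      PresentedGroup.mk ({surfRel h} : Set (FreeGroup (Gen h))) := by
    ext y
    rw [FreeGroup.lift_apply_of]
    rfl
  rw [h1]
  exact (QuotientGroup.eq_one_iff _).2 (Subgroup.subset_normalClosure rfl)

theorem lets_prod : ((lets h).map lv).prod = 1 := by
  rw [← exist_mk_rel h, ← exist_lets_lift]
  rfl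

/-- The affine permutation of a generator. -/
noncomputable def existA (T : SurfaceGroup h →* Module.End ℝ (Gen n → ℝ)) (x : Gen h → Gen n → ℝ)
    (y : Gen h) : Equiv.Perm (Gen n → ℝ) where
  toFun v := x y + T (sgen y) v
  invFun v := T (sgen y)⁻¹ (v - x y)
  left_inv v := by
    have h1 : T (sgen y)⁻¹ (T (sgen y) v) = v := by
      rw [← Module.End.mul_apply, ← map_mul, inv_mul_cancel, map_one, Module.End.one_apply]
    simp only [add_sub_cancel_left]
    exact h1
  right_inv v := by
    have h1 : T (sgen y) (T (sgen y)⁻¹ (v - x y)) = v - x y := by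
      rw [← Module.End.mul_apply, ← map_mul, mul_inv_cancel, map_one, Module.End.one_apply]
    simp only [h1, add_sub_cancel]

theorem existA_apply (x : Gen h → Gen n → ℝ) (y : Gen h) (v : Gen n → ℝ) :
    existA T x y v = x y + T (sgen y) v := rfl

theorem existA_inv_apply (x : Gen h → Gen n → ℝ) (y : Gen h) (v : Gen n → ℝ) :
    (existA T x y)⁻¹ v = T (sgen y)⁻¹ (v - x y) := rfl

theorem exist_walk (x : Gen h → Gen n → ℝ) (l : List (Gen h × Bool)) :
    ∀ (p : SurfaceGroup h) (U v : Gen n → ℝ),
      U + T p ((l.map (fun s => if s.2 then existA T x s.1 else (existA T x s.1)⁻¹)).prod v) =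
        walk T x p U l + T (p * (l.map lv).prod) v := by
  induction l with
  | nil =>
    intro p U v
    simp [walk]
  | cons s l ih =>
    intro p U v
    obtain ⟨y, b⟩ := s
    cases b with
    | true =>
      rw [List.map_cons, List.prod_cons, List.map_cons, List.prod_cons, walk, ← mul_assoc]
      have h1 := ih (p * sgen y) (U + T p (x y)) v
      rw [show lv ((y, true) : Gen h × Bool) = sgen y from rfl, ← h1, Equiv.Perm.mul_apply]
      rw [if_pos rfl, existA_apply, map_add, map_mul, Module.End.mul_apply, add_assoc]
    | false =>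
      rw [List.map_cons, List.prod_cons, List.map_cons, List.prod_cons, walk, ← mul_assoc]
      have h1 := ih (p * (sgen y)⁻¹) (U - T (p * (sgen y)⁻¹) (x y)) v
      rw [show lv ((y, false) : Gen h × Bool) = (sgen y)⁻¹ from rfl, ← h1, Equiv.Perm.mul_apply]
      rw [if_neg (by simp), existA_inv_apply, map_sub, map_sub, map_mul, Module.End.mul_apply,
        Module.End.mul_apply]
      abel

/-- Existence. Proof: for a generator `y` let `A y` be the permutation `v ↦ x y + T (sgen y) v` of
`Gen n → ℝ`. For a list `l` of letters with product `q` and all `p`, `U`, `v`, induction on `l`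
gives `U + T p ((A l) v) = walk T x p U l + T (p * q) v`; so with the hypothesis the relator acts
trivially and `y ↦ A y` induces a homomorphism `A` from the surface group
(`PresentedGroup.toGroup`) to `Equiv.Perm (Gen n → ℝ)`; put `u γ = A γ 0`. -/
theorem exists_coc (T : SurfaceGroup h →* Module.End ℝ (Gen n → ℝ)) (x : Gen h → Gen n → ℝ)
    (hx : walk T x 1 0 (lets h) = 0) :
    ∃ u : SurfaceGroup h → Gen n → ℝ, Coc T u ∧ ∀ y, u (sgen y) = x y := by
  have hrel : ∀ r ∈ ({surfRel h} : Set (FreeGroup (Gen h))),
      FreeGroup.lift (existA T x) r = 1 := by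
    intro r hr
    rw [Set.mem_singleton_iff] at hr
    subst hr
    rw [← exist_lets_lift]
    ext1 v
    have h1 := exist_walk (T := T) x (lets h) 1 0 v
    rw [hx, lets_prod] at h1
    simpa using h1
  let F : SurfaceGroup h →* Equiv.Perm (Gen n → ℝ) := PresentedGroup.toGroup hrel
  have hF : ∀ y, F (sgen y) = existA T x y := fun y => PresentedGroup.toGroup.of hrel
  -- affine
  have haff : ∀ γ : SurfaceGroup h, ∀ v, F γ v = F γ 0 + T γ v := by
    intro γ
    have hmem : γ ∈ Subgroup.closure (Set.range (PresentedGroup.of :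
        Gen h → PresentedGroup ({surfRel h} : Set (FreeGroup (Gen h))))) := by
      rw [PresentedGroup.closure_range_of]
      trivial
    induction hmem using Subgroup.closure_induction with
    | mem γ hγ =>
      obtain ⟨y, rfl⟩ := hγ
      intro v
      have h1 : F (PresentedGroup.of y) = existA T x y := hF y
      rw [h1, existA_apply, existA_apply, map_zero, add_zero]
      rfl
    | one =>
      intro v
      simp
    | mul γ δ _ _ h1 h2 =>
      intro v
      rw [map_mul, Equiv.Perm.mul_apply, Equiv.Perm.mul_apply, h1 (F δ v), h1 (F δ 0), h2 v,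
        map_add, map_mul, Module.End.mul_apply, add_assoc]
    | inv γ _ h1 =>
      intro v
      have h2 : ∀ w, F γ⁻¹ w = T γ⁻¹ (w - F γ 0) := by
        intro w
        have h3 := h1 (F γ⁻¹ w)
        have h4 : F γ (F γ⁻¹ w) = w := by
          rw [← Equiv.Perm.mul_apply, ← map_mul, mul_inv_cancel, map_one, Equiv.Perm.one_apply]
        rw [h4] at h3
        have h5 : w - F γ 0 = T γ (F γ⁻¹ w) := by
          rw [sub_eq_iff_eq_add, add_comm]
          exact h3
        rw [h5, ← Module.End.mul_apply, ← map_mul, inv_mul_cancel, map_one, Module.End.one_apply]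
      rw [h2 v, h2 0, map_sub (T γ⁻¹), map_sub (T γ⁻¹), map_zero (T γ⁻¹)]
      abel
  refine ⟨fun γ => F γ 0, ?_, ?_⟩
  · intro γ δ
    show F (γ * δ) 0 = _
    rw [map_mul, Equiv.Perm.mul_apply, haff γ]
  · intro y
    show F (sgen y) 0 = x y
    rw [hF, existA_apply, map_zero, add_zero]

/-- The walk of a cocycle. -/
theorem walk_eq {u : SurfaceGroup h → Gen n → ℝ} (hu : Coc T u) (l : List (Gen h × Bool))
    (p : SurfaceGroup h) :
    walk T (fun y => u (sgen y)) p (u p) l = u (p * (l.map lv).prod) := by
  induction l generalizing p with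
  | nil => simp [walk]
  | cons s l ih =>
    obtain ⟨y, b⟩ := s
    cases b with
    | true =>
      rw [walk, List.map_cons, List.prod_cons, ← mul_assoc, ← hu, ih]
      rfl
    | false =>
      have h1 : u p - T (p * (sgen y)⁻¹) (u (sgen y)) = u (p * (sgen y)⁻¹) := by
        have h2 := hu (p * (sgen y)⁻¹) (sgen y)
        rw [inv_mul_cancel_right] at h2
        rw [h2, add_sub_cancel_right]
      rw [walk, List.map_cons, List.prod_cons, ← mul_assoc, h1, ih]
      rfl

theorem walk_coc {u : SurfaceGroup h → Gen n → ℝ} (hu : Coc T u) :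
    walk T (fun y => u (sgen y)) 1 0 (lets h) = 0 := by
  have h1 : u 1 = 0 := by
    have h2 := hu 1 1
    rw [mul_one, map_one, Module.End.one_apply] at h2
    simpa using h2
  have h3 := walk_eq hu (lets h) 1
  rw [h1, lets_prod, mul_one, h1] at h3
  exact h3

theorem exist_walk_add (x x' : Gen h → Gen n → ℝ) (l : List (Gen h × Bool)) :
    ∀ (p : SurfaceGroup h) (U U' : Gen n → ℝ),
      walk T (x + x') p (U + U') l = walk T x p U l + walk T x' p U' l := by
  induction l with
  | nil => intro p U U'; rfl
  | cons s l ih =>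
    intro p U U'
    obtain ⟨y, b⟩ := s
    cases b with
    | true =>
      rw [walk, walk, walk, ← ih]
      congr 1
      rw [Pi.add_apply, map_add]
      abel
    | false =>
      rw [walk, walk, walk, ← ih]
      congr 1
      rw [Pi.add_apply, map_add]
      abel

theorem exist_walk_smul (r : ℝ) (x : Gen h → Gen n → ℝ) (l : List (Gen h × Bool)) :
    ∀ (p : SurfaceGroup h) (U : Gen n → ℝ),
      walk T (r • x) p (r • U) l = r • walk T x p U l := by
  induction l with
  | nil => intro p U; rfl
  | cons s l ih =>
    intro p U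
    obtain ⟨y, b⟩ := s
    cases b with
    | true =>
      rw [walk, walk, ← ih]
      congr 1
      rw [Pi.smul_apply, map_smul, smul_add]
    | false =>
      rw [walk, walk, ← ih]
      congr 1
      rw [Pi.smul_apply, map_smul, smul_sub]

/-- The walk along the relator as a linear map. -/
noncomputable def walkL (T : SurfaceGroup h →* Module.End ℝ (Gen n → ℝ)) :
    (Gen h → Gen n → ℝ) →ₗ[ℝ] (Gen n → ℝ) where
  toFun x := walk T x 1 0 (lets h)
  map_add' := by
    intro x x'
    have h1 := exist_walk_add (T := T) x x' (lets h) 1 0 0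
    rwa [add_zero] at h1
  map_smul' := by
    intro r x
    have h1 := exist_walk_smul (T := T) r x (lets h) 1 0
    rwa [smul_zero] at h1

theorem walkL_apply (x : Gen h → Gen n → ℝ) : walkL T x = walk T x 1 0 (lets h) := rfl

end H13SB
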