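import Pool.Agent.H13.SB.Num.Diag
import Pool.Agent.H13.SB.Num.Rel

/-!
# The numerical facts
-/

namespace H13SB

theorem num_symp : Symp X.piece.lin := Num.num_symp

theorem num_inv (w : Gen 3 → ℝ) (hw : ∀ x, X.piece.lin (sgen x) w = w) : w = 0 :=
  Num.num_inv w hw

theorem num_pos : ∃ c : Fin 50 → SurfaceGroup 9 → Gen 3 → ℝ, (∀ k, Coc X.piece.lin (c k)) ∧
    ∀ t : Fin 50 → ℝ, t ≠ 0 →
      0 < formT X.piece.lin (∑ k, t k • c k) (∑ k, t k • c k) := Num.num_pos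

theorem num_rel : ∃ c : Fin 6 → Gen 9 → Gen 3 → ℝ, ∀ s : Fin 6 → ℝ,
    walk X.piece.lin (∑ k, s k • c k) 1 0 (lets 9) = 0 → s = 0 := Num.num_rel

end H13SB
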