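import Pool.Agent.H13.SB.Sig.Coc

/-!
# The representation of a sum of pieces
-/

namespace H13SB

variable {h g k : ℕ}

/-- Gluing vectors. -/
noncomputable def glue (g k : ℕ) :
    ((Gen g → ℝ) × (Gen k → ℝ)) →ₗ[ℝ] (Gen (g + k) → ℝ) where
  toFun p := fun x => Fin.addCases (motive := fun _ => ℝ) (fun i => p.1 (i, x.2))
    (fun j => p.2 (j, x.2)) x.1
  map_add' := by
    intro p q
    funext x
    rcases x with ⟨i, t⟩
    induction i using Fin.addCases with
    | left i => simp
    | right j => simp
  map_smul' := by
    intro r p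
    funext x
    rcases x with ⟨i, t⟩
    induction i using Fin.addCases with
    | left i => simp
    | right j => simp

theorem glue_L (p : (Gen g → ℝ) × (Gen k → ℝ)) (x : Gen g) : glue g k p (genL x) = p.1 x := by
  simp [glue, genL]

theorem glue_R (p : (Gen g → ℝ) × (Gen k → ℝ)) (x : Gen k) : glue g k p (genR x) = p.2 x := by
  simp [glue, genR]

theorem glue_injective : Function.Injective (glue g k) := by
  intro p q hpq
  refine Prod.ext ?_ ?_
  · funext x
    rw [← glue_L p x, ← glue_L q x, hpq]
  · funext x
    rw [← glue_R p x, ← glue_R q x, hpq]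

private theorem gen_cases {motive : Gen (g + k) → Prop} (hL : ∀ x : Gen g, motive (genL x))
    (hR : ∀ x : Gen k, motive (genR x)) (x : Gen (g + k)) : motive x := by
  rcases x with ⟨i, t⟩
  induction i using Fin.addCases with
  | left i => exact hL (i, t)
  | right j => exact hR (j, t)

theorem glue_surjective (v : Gen (g + k) → ℝ) :
    glue g k (fun x => v (genL x), fun x => v (genR x)) = v := by
  funext x
  induction x using gen_cases with
  | hL x => rw [glue_L]
  | hR x => rw [glue_R]

theorem omega_glue (p q : (Gen g → ℝ) × (Gen k → ℝ)) :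
    omega (glue g k p) (glue g k q) = omega p.1 q.1 + omega p.2 q.2 := by
  rw [omega, omega, omega, Fin.sum_univ_add]
  congr 1
  · refine Finset.sum_congr rfl fun i _ => ?_
    have h1 := glue_L p (i, false)
    have h2 := glue_L p (i, true)
    have h3 := glue_L q (i, false)
    have h4 := glue_L q (i, true)
    simp only [genL] at h1 h2 h3 h4
    rw [h1, h2, h3, h4]
  · refine Finset.sum_congr rfl fun i _ => ?_
    have h1 := glue_R p (i, false)
    have h2 := glue_R p (i, true)
    have h3 := glue_R q (i, false)
    have h4 := glue_R q (i, true)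
    simp only [genR] at h1 h2 h3 h4
    rw [h1, h2, h3, h4]

private theorem sum_gen (f : Gen (g + k) → ℝ) :
    ∑ x, f x = ∑ x : Gen g, f (genL x) + ∑ x : Gen k, f (genR x) := by
  rw [Fintype.sum_prod_type, Fin.sum_univ_add, Fintype.sum_prod_type, Fintype.sum_prod_type]
  rfl

private theorem fclass_inL_L (w : FreeGroup (Gen g)) (x : Gen g) :
    fclass (inL (k := k) w) (genL x) = fclass w x := by
  have h : (fexp (genL (k := k) x)).comp inL = fexp x := by
    apply FreeGroup.ext_hom
    rintro ⟨i, t⟩
    rcases x with ⟨j, s⟩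
    simp [fexp, inL, genL]
  exact congrArg Multiplicative.toAdd (DFunLike.congr_fun h w)

private theorem fclass_inL_R (w : FreeGroup (Gen g)) (x : Gen k) :
    fclass (inL (k := k) w) (genR x) = 0 := by
  have h : (fexp (genR (g := g) x)).comp inL = 1 := by
    apply FreeGroup.ext_hom
    rintro ⟨i, t⟩
    rcases x with ⟨j, s⟩
    have hij : Fin.castAdd k i ≠ Fin.natAdd g j := by
      intro hh
      have := congrArg Fin.val hh
      simp only [Fin.val_castAdd, Fin.val_natAdd] at this
      omega
    simp [fexp, inL, genL, genR, hij]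
  exact congrArg Multiplicative.toAdd (DFunLike.congr_fun h w)

private theorem fclass_inR_R (w : FreeGroup (Gen k)) (x : Gen k) :
    fclass (inR (g := g) w) (genR x) = fclass w x := by
  have h : (fexp (genR (g := g) x)).comp inR = fexp x := by
    apply FreeGroup.ext_hom
    rintro ⟨i, t⟩
    rcases x with ⟨j, s⟩
    simp [fexp, inR, genR]
  exact congrArg Multiplicative.toAdd (DFunLike.congr_fun h w)

private theorem fclass_inR_L (w : FreeGroup (Gen k)) (x : Gen g) :
    fclass (inR (g := g) w) (genL x) = 0 := by
  have h : (fexp (genL (k := k) x)).comp inR = 1 := by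
    apply FreeGroup.ext_hom
    rintro ⟨i, t⟩
    rcases x with ⟨j, s⟩
    have hij : Fin.natAdd g i ≠ Fin.castAdd k j := by
      intro hh
      have := congrArg Fin.val hh
      simp only [Fin.val_castAdd, Fin.val_natAdd] at this
      omega
    simp [fexp, inR, genL, genR, hij]
  exact congrArg Multiplicative.toAdd (DFunLike.congr_fun h w)

theorem lin_glue (P : Piece (SurfaceGroup h) g) (Q : Piece (SurfaceGroup h) k)
    (γ : SurfaceGroup h) (p : (Gen g → ℝ) × (Gen k → ℝ)) :
    (P.add Q).lin γ (glue g k p) = glue g k (P.lin γ p.1, Q.lin γ p.2) := by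
  have hL : ∀ y : Gen g, (FreeGroup.of (genL y) : FreeGroup (Gen (g + k))) =
      inL (FreeGroup.of y) := fun y => by rw [inL, FreeGroup.map.of]
  have hR : ∀ y : Gen k, (FreeGroup.of (genR y) : FreeGroup (Gen (g + k))) =
      inR (FreeGroup.of y) := fun y => by rw [inR, FreeGroup.map.of]
  funext x
  rw [Piece.lin_apply, sum_gen]
  simp only [hL, hR, Piece.add_inL, Piece.add_inR, glue_L, glue_R]
  induction x using gen_cases with
  | hL x =>
    simp only [fclass_inL_L, fclass_inR_L, glue_L, Piece.lin_apply, Int.cast_zero, zero_mul,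
      Finset.sum_const_zero, add_zero]
  | hR x =>
    simp only [fclass_inL_R, fclass_inR_R, glue_R, Piece.lin_apply, Int.cast_zero, zero_mul,
      Finset.sum_const_zero, zero_add]

/-- A homologically trivial piece acts trivially. -/
theorem lin_triv (Q : Piece (SurfaceGroup h) k)
    (hQ : ∀ γ w, fclass (Q.ρ γ w) = fclass w) (γ : SurfaceGroup h) : Q.lin γ = 1 := by
  apply LinearMap.ext
  intro v
  funext x
  rw [Piece.lin_apply, Module.End.one_apply, Finset.sum_eq_single x]
  · rw [hQ, fclass_of]
    simp only [if_true, Int.cast_one, one_mul]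
  · intro b _ hb
    rw [hQ, fclass_of]
    simp only [if_neg hb, Int.cast_zero, zero_mul]
  · intro hx
    exact absurd (Finset.mem_univ x) hx

theorem symp_add {P : Piece (SurfaceGroup h) g} {Q : Piece (SurfaceGroup h) k}
    (hP : Symp P.lin) (hQ : Symp Q.lin) : Symp (P.add Q).lin := by
  intro x v w
  rw [← glue_surjective v, ← glue_surjective w, lin_glue, lin_glue, omega_glue, omega_glue]
  simp only
  rw [hP, hQ]

theorem coc_glue {P : Piece (SurfaceGroup h) g} {Q : Piece (SurfaceGroup h) k}
    {u : SurfaceGroup h → Gen g → ℝ} {v : SurfaceGroup h → Gen k → ℝ}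
    (hu : Coc P.lin u) (hv : Coc Q.lin v) :
    Coc (P.add Q).lin (fun γ => glue g k (u γ, v γ)) := by
  intro x y
  rw [lin_glue, ← map_add, Prod.mk_add_mk, ← hu, ← hv]

/-- The first component of a cocycle is a cocycle. -/
theorem coc_left {P : Piece (SurfaceGroup h) g} {Q : Piece (SurfaceGroup h) k}
    {u : SurfaceGroup h → Gen (g + k) → ℝ} (hu : Coc (P.add Q).lin u) :
    Coc P.lin (fun γ x => u γ (genL x)) := by
  intro x y
  funext t
  have h1 := congrFun (hu x y) (genL t)
  rw [← glue_surjective (u y), lin_glue, Pi.add_apply, glue_L] at h1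
  exact h1

theorem formT_glue (P : Piece (SurfaceGroup h) g) (Q : Piece (SurfaceGroup h) k)
    (u u' : SurfaceGroup h → Gen g → ℝ) (v v' : SurfaceGroup h → Gen k → ℝ) :
    formT (P.add Q).lin (fun γ => glue g k (u γ, v γ)) (fun γ => glue g k (u' γ, v' γ)) =
      formT P.lin u u' + formT Q.lin v v' := by
  rw [formT, formT, formT, ← fundEval_add]
  congr 1
  funext x y
  rw [lin_glue, omega_glue]

end H13SB
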