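import Pool.Agent.H13.SB.Sig.Base

/-!
# The form for the trivial representation
-/

namespace H13SB

variable {h n : ℕ}

/-- A complex structure compatible with the symplectic form. -/
def Jz (v : Gen n → ℝ) : Gen n → ℝ :=
  fun x => if x.2 then v (x.1, false) else -v (x.1, true)

private theorem Jz_add' (v w : Gen n → ℝ) : Jz (v + w) = Jz v + Jz w := by
  funext x
  rcases x with ⟨i, b⟩
  cases b
  · simp only [Jz, Pi.add_apply, Bool.false_eq_true, if_false]
    ring
  · simp only [Jz, Pi.add_apply, if_true]

private theorem Jz_smul' (r : ℝ) (v : Gen n → ℝ) : Jz (r • v) = r • Jz v := by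
  funext x
  rcases x with ⟨i, b⟩
  cases b
  · simp only [Jz, Pi.smul_apply, smul_eq_mul, Bool.false_eq_true, if_false]
    ring
  · simp only [Jz, Pi.smul_apply, smul_eq_mul, if_true]

/-- The homomorphism with `a_i ↦ z_i`, `b_i ↦ J z_i`. -/
noncomputable def homz (h n : ℕ) :
    (Fin h → Gen n → ℝ) →ₗ[ℝ] (SurfaceGroup h → Gen n → ℝ) where
  toFun z := fun γ => ∑ x : Gen h,
    (((expSum x γ).toAdd : ℤ) : ℝ) • (if x.2 then Jz (z x.1) else z x.1)
  map_add' := by
    intro z w
    funext γ
    rw [Pi.add_apply, ← Finset.sum_add_distrib]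
    refine Finset.sum_congr rfl fun x _ => ?_
    rw [← smul_add]
    congr 1
    split_ifs
    · rw [Pi.add_apply, Jz_add']
    · rw [Pi.add_apply]
  map_smul' := by
    intro r z
    funext γ
    rw [Pi.smul_apply, RingHom.id_apply, Finset.smul_sum]
    refine Finset.sum_congr rfl fun x _ => ?_
    rw [smul_comm r]
    congr 1
    split_ifs
    · rw [Pi.smul_apply, Jz_smul']
    · rw [Pi.smul_apply]

private theorem homz_def (z : Fin h → Gen n → ℝ) (γ : SurfaceGroup h) :
    homz h n z γ = ∑ x : Gen h,
      (((expSum x γ).toAdd : ℤ) : ℝ) • (if x.2 then Jz (z x.1) else z x.1) := rfl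

private theorem expSum_sgen' (x y : Gen h) :
    expSum x (sgen y) = Multiplicative.ofAdd (if y = x then (1 : ℤ) else 0) := by
  rw [expSum, sgen, PresentedGroup.toGroup.of]

theorem homz_mul (z : Fin h → Gen n → ℝ) (x y : SurfaceGroup h) :
    homz h n z (x * y) = homz h n z x + homz h n z y := by
  rw [homz_def, homz_def, homz_def, ← Finset.sum_add_distrib]
  refine Finset.sum_congr rfl fun t _ => ?_
  rw [map_mul, toAdd_mul, Int.cast_add, add_smul]

private theorem homz_sgen (z : Fin h → Gen n → ℝ) (y : Gen h) :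
    homz h n z (sgen y) = if y.2 then Jz (z y.1) else z y.1 := by
  rw [homz_def, Finset.sum_eq_single y]
  · rw [expSum_sgen', toAdd_ofAdd, if_pos rfl, Int.cast_one, one_smul]
  · intro b _ hb
    rw [expSum_sgen', toAdd_ofAdd, if_neg (Ne.symm hb), Int.cast_zero, zero_smul]
  · intro hy
    exact absurd (Finset.mem_univ y) hy

theorem homz_a (z : Fin h → Gen n → ℝ) (i : Fin h) : homz h n z (sgen (i, false)) = z i := by
  rw [homz_sgen]
  rfl

theorem homz_b (z : Fin h → Gen n → ℝ) (i : Fin h) :
    homz h n z (sgen (i, true)) = Jz (z i) := by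
  rw [homz_sgen]
  rfl

private theorem chainEval_block (c : SurfaceGroup h → SurfaceGroup h → ℝ)
    (h1 : ∀ x y z, c (x * y) z = c x z + c y z) (h2 : ∀ x y z, c x (y * z) = c x y + c x z)
    (m : ℕ) : ∀ (a b : Fin m → SurfaceGroup h) (p : SurfaceGroup h),
    chainEval c p ((List.ofFn fun i : Fin m => [a i, b i, (a i)⁻¹, (b i)⁻¹]).flatten) =
      ∑ i : Fin m, (c (a i) (b i) - c (b i) (a i) - c (a i) (a i) - c (b i) (b i)) := by
  have h10 : ∀ z, c 1 z = 0 := by
    intro z
    have := h1 1 1 z
    rw [mul_one] at this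
    linarith
  have h20 : ∀ z, c z 1 = 0 := by
    intro z
    have := h2 z 1 1
    rw [mul_one] at this
    linarith
  have h1i : ∀ x z, c x⁻¹ z = -c x z := by
    intro x z
    have := h1 x⁻¹ x z
    rw [inv_mul_cancel, h10] at this
    linarith
  have h2i : ∀ x z, c x z⁻¹ = -c x z := by
    intro x z
    have := h2 x z⁻¹ z
    rw [inv_mul_cancel, h20] at this
    linarith
  induction m with
  | zero =>
    intro a b p
    simp [chainEval]
  | succ m ih =>
    intro a b p
    rw [List.ofFn_succ, List.flatten_cons, Fin.sum_univ_succ]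
    simp only [List.cons_append, List.nil_append, chainEval]
    rw [ih (fun i => a i.succ) (fun i => b i.succ)]
    simp only [h1, h1i, h2i]
    ring

/-- For a biadditive `c` the value on the fundamental class is
`∑_i (c(a_i, b_i) - c(b_i, a_i))`. -/
theorem fundEval_biadd (c : SurfaceGroup h → SurfaceGroup h → ℝ)
    (h1 : ∀ x y z, c (x * y) z = c x z + c y z) (h2 : ∀ x y z, c x (y * z) = c x y + c x z) :
    fundEval c = ∑ i : Fin h, (c (sgen (i, false)) (sgen (i, true)) -
      c (sgen (i, true)) (sgen (i, false))) := by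
  have h10 : ∀ z, c 1 z = 0 := by
    intro z
    have := h1 1 1 z
    rw [mul_one] at this
    linarith
  have h1i : ∀ x z, c x⁻¹ z = -c x z := by
    intro x z
    have := h1 x⁻¹ x z
    rw [inv_mul_cancel, h10] at this
    linarith
  rw [fundEval, letters, chainEval_block c h1 h2 h (fun i => sgen (i, false))
    (fun i => sgen (i, true)) 1, Fintype.sum_prod_type, ← Finset.sum_sub_distrib]
  refine Finset.sum_congr rfl fun i _ => ?_
  rw [Fintype.sum_bool, h1i, h1i]
  ring

private theorem omega_add_left' (v v' w : Gen n → ℝ) :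
    omega (v + v') w = omega v w + omega v' w := by
  simp only [omega, Pi.add_apply]
  rw [← Finset.sum_add_distrib]
  exact Finset.sum_congr rfl fun i _ => by ring

private theorem omega_add_right' (v w w' : Gen n → ℝ) :
    omega v (w + w') = omega v w + omega v w' := by
  simp only [omega, Pi.add_apply]
  rw [← Finset.sum_add_distrib]
  exact Finset.sum_congr rfl fun i _ => by ring

private theorem omega_Jz (v : Gen n → ℝ) : omega v (Jz v) = ∑ x, (v x) ^ 2 := by
  rw [Fintype.sum_prod_type, omega]
  refine Finset.sum_congr rfl fun i _ => ?_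
  rw [Fintype.sum_bool]
  simp only [Jz, Bool.false_eq_true, if_false, if_true]
  ring

private theorem omega_Jz' (v : Gen n → ℝ) : omega (Jz v) v = -∑ x, (v x) ^ 2 := by
  rw [Fintype.sum_prod_type, omega, ← Finset.sum_neg_distrib]
  refine Finset.sum_congr rfl fun i _ => ?_
  rw [Fintype.sum_bool]
  simp only [Jz, Bool.false_eq_true, if_false, if_true]
  ring

theorem form_homz (z : Fin h → Gen n → ℝ) :
    fundEval (fun x y => omega (homz h n z x) (homz h n z y)) =
      2 * ∑ i, ∑ x, (z i x) ^ 2 := by
  rw [fundEval_biadd]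
  · rw [Finset.mul_sum]
    refine Finset.sum_congr rfl fun i _ => ?_
    simp only [homz_a, homz_b, omega_Jz, omega_Jz']
    ring
  · intro x y t
    rw [homz_mul, omega_add_left']
  · intro x y t
    rw [homz_mul, omega_add_right']

end H13SB
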