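import Pool.Agent.H13.SB.Sig.Coc
import Pool.Agent.H13.SB.Sig.Exist
import Pool.Agent.H13.SB.Sig.Triv
import Pool.Agent.H13.SB.Sig.Count
import Pool.Agent.H13.SB.Sig.Split
import Pool.Agent.H13.SB.Sig.NumStub

/-!
# The signature is not zero
-/

namespace H13SB

section MainAux

variable {h n r : ℕ}

theorem mainSympAdd (Q : Piece (SurfaceGroup 9) r) (hQ : ∀ γ w, fclass (Q.ρ γ w) = fclass w) :
    Symp (X.piece.add Q).lin :=
  symp_add num_symp fun x v w => by
    rw [lin_triv Q hQ x]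
    rfl

theorem mainCocZero (T : SurfaceGroup h →* Module.End ℝ (Gen n → ℝ)) :
    Coc T (0 : SurfaceGroup h → Gen n → ℝ) := by
  intro x y
  simp only [Pi.zero_apply, map_zero, add_zero]

theorem mainCocAdd {T : SurfaceGroup h →* Module.End ℝ (Gen n → ℝ)}
    {u v : SurfaceGroup h → Gen n → ℝ} (hu : Coc T u) (hv : Coc T v) : Coc T (u + v) := by
  intro x y
  rw [Pi.add_apply, Pi.add_apply, Pi.add_apply, hu x y, hv x y, map_add]
  abel

theorem mainCocSmul {T : SurfaceGroup h →* Module.End ℝ (Gen n → ℝ)}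
    {u : SurfaceGroup h → Gen n → ℝ} (a : ℝ) (hu : Coc T u) : Coc T (a • u) := by
  intro x y
  rw [Pi.smul_apply, Pi.smul_apply, Pi.smul_apply, hu x y, map_smul, smul_add]

/-- The space of cocycles. -/
def mainZ (T : SurfaceGroup h →* Module.End ℝ (Gen n → ℝ)) :
    Submodule ℝ (SurfaceGroup h → Gen n → ℝ) where
  carrier := {u | Coc T u}
  add_mem' := fun hu hv => mainCocAdd hu hv
  zero_mem' := mainCocZero T
  smul_mem' := fun a _ hu => mainCocSmul a hu

theorem mem_mainZ {T : SurfaceGroup h →* Module.End ℝ (Gen n → ℝ)}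
    {u : SurfaceGroup h → Gen n → ℝ} : u ∈ mainZ T ↔ Coc T u := Iff.rfl

/-- The values on the generators. -/
def mainE (h n : ℕ) : (SurfaceGroup h → Gen n → ℝ) →ₗ[ℝ] (Gen h → Gen n → ℝ) where
  toFun u := fun y => u (sgen y)
  map_add' _ _ := rfl
  map_smul' _ _ := rfl

theorem mainE_inj (T : SurfaceGroup h →* Module.End ℝ (Gen n → ℝ)) :
    ∀ z ∈ mainZ T, mainE h n z = 0 → z = 0 :=
  fun _ hz hE => Coc.ext (mem_mainZ.mp hz) (mainCocZero T) fun y => congrFun hE y

theorem mainFinrank (r : ℕ) : Module.finrank ℝ (Gen 9 → Gen (3 + r) → ℝ) = 108 + 36 * r := by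
  rw [Module.finrank_pi_fintype]
  simp only [Module.finrank_fintype_fun_eq_card, Finset.sum_const, Finset.card_univ,
    Fintype.card_prod, Fintype.card_fin, Fintype.card_bool, smul_eq_mul]
  ring

/-- The glued cocycles. -/
noncomputable def mainPhi (r : ℕ) (c : Fin 50 → SurfaceGroup 9 → Gen 3 → ℝ) :
    ((Fin 50 → ℝ) × (Fin 9 → Gen r → ℝ)) →ₗ[ℝ] (SurfaceGroup 9 → Gen (3 + r) → ℝ) where
  toFun p := fun γ => glue 3 r ((∑ k, p.1 k • c k) γ, homz 9 r p.2 γ)
  map_add' p q := by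
    funext γ
    rw [Pi.add_apply, ← map_add]
    congr 1
    refine Prod.ext ?_ ?_
    · simp only [Prod.fst_add, Pi.add_apply, add_smul, Finset.sum_add_distrib]
    · simp only [Prod.snd_add, map_add, Pi.add_apply]
  map_smul' a p := by
    funext γ
    rw [RingHom.id_apply, Pi.smul_apply, ← map_smul]
    congr 1
    refine Prod.ext ?_ ?_
    · have h1 : ∑ k, (a • p).1 k • c k = a • ∑ k, p.1 k • c k := by
        rw [Finset.smul_sum]
        exact Finset.sum_congr rfl fun k _ => by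
          rw [Prod.smul_fst, Pi.smul_apply, smul_eq_mul, mul_smul]
      rw [h1]
      rfl
    · simp only [Prod.smul_snd, map_smul, Pi.smul_apply]

theorem mainPhi_apply (c : Fin 50 → SurfaceGroup 9 → Gen 3 → ℝ)
    (p : (Fin 50 → ℝ) × (Fin 9 → Gen r → ℝ)) :
    mainPhi r c p = fun γ => glue 3 r ((∑ k, p.1 k • c k) γ, homz 9 r p.2 γ) := rfl

theorem mainCocSum {T : SurfaceGroup h →* Module.End ℝ (Gen n → ℝ)} {m : ℕ}
    {c : Fin m → SurfaceGroup h → Gen n → ℝ} (hc : ∀ k, Coc T (c k)) (t : Fin m → ℝ) :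
    Coc T (∑ k, t k • c k) := by
  have h1 : ∑ k, t k • c k ∈ mainZ T :=
    Submodule.sum_mem _ fun k _ => mem_mainZ.mpr (mainCocSmul (t k) (hc k))
  exact mem_mainZ.mp h1

theorem mainCocHomz (Q : Piece (SurfaceGroup 9) r) (hQ : ∀ γ w, fclass (Q.ρ γ w) = fclass w)
    (z : Fin 9 → Gen r → ℝ) : Coc Q.lin (homz 9 r z) := by
  intro x y
  rw [lin_triv Q hQ x, homz_mul]
  rfl

theorem mainPhi_coc (Q : Piece (SurfaceGroup 9) r) (hQ : ∀ γ w, fclass (Q.ρ γ w) = fclass w)
    {c : Fin 50 → SurfaceGroup 9 → Gen 3 → ℝ} (hc : ∀ k, Coc X.piece.lin (c k))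
    (p : (Fin 50 → ℝ) × (Fin 9 → Gen r → ℝ)) :
    Coc (X.piece.add Q).lin (mainPhi r c p) := by
  rw [mainPhi_apply]
  exact coc_glue (mainCocSum hc p.1) (mainCocHomz Q hQ p.2)

theorem mainFormTriv (Q : Piece (SurfaceGroup 9) r) (hQ : ∀ γ w, fclass (Q.ρ γ w) = fclass w)
    (z : Fin 9 → Gen r → ℝ) :
    formT Q.lin (homz 9 r z) (homz 9 r z) = 2 * ∑ i, ∑ x, (z i x) ^ 2 := by
  rw [← form_homz]
  unfold formT
  congr 1
  funext x y
  rw [lin_triv Q hQ x]
  rfl

theorem mainPhi_pos (Q : Piece (SurfaceGroup 9) r) (hQ : ∀ γ w, fclass (Q.ρ γ w) = fclass w)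
    {c : Fin 50 → SurfaceGroup 9 → Gen 3 → ℝ}
    (hpos : ∀ t : Fin 50 → ℝ, t ≠ 0 →
      0 < formT X.piece.lin (∑ k, t k • c k) (∑ k, t k • c k))
    (p : (Fin 50 → ℝ) × (Fin 9 → Gen r → ℝ)) (hp : p ≠ 0) :
    0 < formT (X.piece.add Q).lin (mainPhi r c p) (mainPhi r c p) := by
  rw [mainPhi_apply, formT_glue, mainFormTriv Q hQ]
  have h2 : (0 : ℝ) ≤ ∑ i, ∑ x, (p.2 i x) ^ 2 :=
    Finset.sum_nonneg fun i _ => Finset.sum_nonneg fun x _ => sq_nonneg _
  rcases eq_or_ne p.1 0 with h1 | h1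
  · have h3 : p.2 ≠ 0 := fun h3 => hp (Prod.ext h1 h3)
    have h4 : formT X.piece.lin (∑ k, p.1 k • c k) (∑ k, p.1 k • c k) = 0 := by
      have h5 : ∑ k, p.1 k • c k = 0 := by
        rw [h1]
        simp only [Pi.zero_apply, zero_smul, Finset.sum_const_zero]
      rw [h5, ← formB_apply, map_zero]
    have h6 : (0 : ℝ) < ∑ i, ∑ x, (p.2 i x) ^ 2 := by
      obtain ⟨i, hi⟩ := Function.ne_iff.mp h3
      obtain ⟨x, hx⟩ := Function.ne_iff.mp hi
      refine Finset.sum_pos' (fun i _ => Finset.sum_nonneg fun x _ => sq_nonneg _)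
        ⟨i, Finset.mem_univ _, ?_⟩
      refine Finset.sum_pos' (fun x _ => sq_nonneg _) ⟨x, Finset.mem_univ _, ?_⟩
      exact lt_of_le_of_ne (sq_nonneg _) (Ne.symm (pow_ne_zero 2 hx))
    rw [h4]
    linarith
  · have h3 := hpos p.1 h1
    linarith

theorem mainPhi_inj (Q : Piece (SurfaceGroup 9) r) (hQ : ∀ γ w, fclass (Q.ρ γ w) = fclass w)
    {c : Fin 50 → SurfaceGroup 9 → Gen 3 → ℝ}
    (hpos : ∀ t : Fin 50 → ℝ, t ≠ 0 →
      0 < formT X.piece.lin (∑ k, t k • c k) (∑ k, t k • c k)) :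
    Function.Injective (mainPhi r c) := by
  rw [injective_iff_map_eq_zero]
  intro p hp
  by_contra hne
  have h1 := mainPhi_pos Q hQ hpos p hne
  rw [hp, ← formB_apply, map_zero] at h1
  exact lt_irrefl _ h1

theorem mainPhi_finrank (Q : Piece (SurfaceGroup 9) r)
    (hQ : ∀ γ w, fclass (Q.ρ γ w) = fclass w)
    {c : Fin 50 → SurfaceGroup 9 → Gen 3 → ℝ}
    (hpos : ∀ t : Fin 50 → ℝ, t ≠ 0 →
      0 < formT X.piece.lin (∑ k, t k • c k) (∑ k, t k • c k)) :
    Module.finrank ℝ (LinearMap.range (mainPhi r c)) = 50 + 18 * r := by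
  rw [LinearMap.finrank_range_of_inj (mainPhi_inj Q hQ hpos), Module.finrank_prod,
    Module.finrank_fintype_fun_eq_card, Module.finrank_pi_fintype]
  simp only [Module.finrank_fintype_fun_eq_card, Finset.sum_const, Finset.card_univ,
    Fintype.card_prod, Fintype.card_fin, Fintype.card_bool, smul_eq_mul]
  ring

/-- The coboundaries of the vectors of the first summand. -/
noncomputable def mainCob (T : SurfaceGroup 9 →* Module.End ℝ (Gen (3 + r) → ℝ)) :
    (Gen 3 → ℝ) →ₗ[ℝ] (SurfaceGroup 9 → Gen (3 + r) → ℝ) :=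
  (cob T).comp ((glue 3 r).comp (LinearMap.inl ℝ (Gen 3 → ℝ) (Gen r → ℝ)))

theorem mainCob_apply (T : SurfaceGroup 9 →* Module.End ℝ (Gen (3 + r) → ℝ))
    (w : Gen 3 → ℝ) : mainCob T w = cob T (glue 3 r (w, 0)) := rfl

theorem mainCob_inj (Q : Piece (SurfaceGroup 9) r) :
    Function.Injective (mainCob (X.piece.add Q).lin) := by
  rw [injective_iff_map_eq_zero]
  intro w hw
  refine num_inv w fun x => ?_
  have h1 := congrFun hw (sgen x)
  have h2 : (X.piece.add Q).lin (sgen x) (glue 3 r (w, 0)) - glue 3 r (w, 0) = 0 := h1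
  rw [lin_glue, sub_eq_zero] at h2
  exact congrArg Prod.fst (glue_injective h2)

theorem mainCob_finrank (Q : Piece (SurfaceGroup 9) r) :
    Module.finrank ℝ (LinearMap.range (mainCob (X.piece.add Q).lin)) = 6 := by
  rw [LinearMap.finrank_range_of_inj (mainCob_inj Q)]
  simp only [Module.finrank_fintype_fun_eq_card, Fintype.card_prod, Fintype.card_fin,
    Fintype.card_bool]

/-- The complement of the values of the cocycles. -/
noncomputable def mainC (r : ℕ) (c : Fin 6 → Gen 9 → Gen 3 → ℝ) :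
    (Fin 6 → ℝ) →ₗ[ℝ] (Gen 9 → Gen (3 + r) → ℝ) where
  toFun s := fun y => glue 3 r ((∑ k, s k • c k) y, 0)
  map_add' p q := by
    funext y
    rw [Pi.add_apply, ← map_add, Prod.mk_add_mk, add_zero, ← Pi.add_apply,
      ← Finset.sum_add_distrib]
    simp only [Pi.add_apply, add_smul]
  map_smul' a p := by
    funext y
    rw [RingHom.id_apply, Pi.smul_apply, ← map_smul, Prod.smul_mk, smul_zero, ← Pi.smul_apply,
      Finset.smul_sum]
    simp only [Pi.smul_apply, smul_smul, smul_eq_mul]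

theorem mainC_apply (c : Fin 6 → Gen 9 → Gen 3 → ℝ) (s : Fin 6 → ℝ) :
    mainC r c s = fun y => glue 3 r ((∑ k, s k • c k) y, 0) := rfl

theorem mainC_eq {c : Fin 6 → Gen 9 → Gen 3 → ℝ} {s : Fin 6 → ℝ}
    {z : SurfaceGroup 9 → Gen (3 + r) → ℝ} (h : mainC r c s = mainE 9 (3 + r) z) (y : Gen 9) :
    (fun x => z (sgen y) (genL x)) = (∑ k, s k • c k) y := by
  funext x
  have h1 : glue 3 r ((∑ k, s k • c k) y, 0) (genL x) = z (sgen y) (genL x) :=
    congrFun (congrFun h y) (genL x)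
  rw [glue_L] at h1
  exact h1.symm

theorem mainC_inj {c : Fin 6 → Gen 9 → Gen 3 → ℝ}
    (hc : ∀ s : Fin 6 → ℝ, walk X.piece.lin (∑ k, s k • c k) 1 0 (lets 9) = 0 → s = 0) :
    Function.Injective (mainC r c) := by
  rw [injective_iff_map_eq_zero]
  intro s hs
  refine hc s ?_
  have h1 : ∑ k, s k • c k = 0 := by
    funext y
    have h2 := mainC_eq (z := 0) (hs.trans (map_zero _).symm) y
    rw [← h2]
    rfl
  rw [h1, ← walkL_apply, map_zero]

theorem mainC_finrank {c : Fin 6 → Gen 9 → Gen 3 → ℝ}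
    (hc : ∀ s : Fin 6 → ℝ, walk X.piece.lin (∑ k, s k • c k) 1 0 (lets 9) = 0 → s = 0) :
    Module.finrank ℝ (LinearMap.range (mainC r c)) = 6 := by
  rw [LinearMap.finrank_range_of_inj (mainC_inj hc)]
  simp only [Module.finrank_fintype_fun_eq_card, Fintype.card_fin]

theorem mainC_compl (Q : Piece (SurfaceGroup 9) r) {c : Fin 6 → Gen 9 → Gen 3 → ℝ}
    (hc : ∀ s : Fin 6 → ℝ, walk X.piece.lin (∑ k, s k • c k) 1 0 (lets 9) = 0 → s = 0) :
    ∀ z ∈ mainZ (X.piece.add Q).lin, mainE 9 (3 + r) z ∈ LinearMap.range (mainC r c) →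
      mainE 9 (3 + r) z = 0 := by
  rintro z hz ⟨s, hs⟩
  have h1 := walk_coc (coc_left (mem_mainZ.mp hz))
  have h2 : (fun y => (fun x => z (sgen y) (genL x))) = ∑ k, s k • c k :=
    funext fun y => mainC_eq hs y
  have h3 : s = 0 := by
    refine hc s ?_
    rw [← h2]
    exact h1
  rw [← hs, h3, map_zero]

end MainAux

theorem orientationPreserving_add {r : ℕ} (Q : Piece (SurfaceGroup 9) r)
    (hQ : ∀ γ w, fclass (Q.ρ γ w) = fclass w) :
    OrientationPreserving (X.piece.add Q).close := by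
  intro x v w
  rw [act_close_lin, act_close_lin]
  exact mainSympAdd Q hQ x v w

/-- `posIndex ≥ 50 + 18 r`: the span of the glued cocycles `glue (∑ t_k c_k) (homz z)`. -/
theorem posIndex_ge {r : ℕ} (Q : Piece (SurfaceGroup 9) r)
    (hQ : ∀ γ w, fclass (Q.ρ γ w) = fclass w) :
    50 + 18 * r ≤ posIndex (X.piece.add Q).close := by
  obtain ⟨c, hc, hpos⟩ := num_pos
  refine le_csSup ?_ ⟨LinearMap.range (mainPhi r c), ?_, ?_, mainPhi_finrank Q hQ hpos⟩
  · refine ⟨108 + 36 * r, ?_⟩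
    rintro m ⟨W, hW, -, rfl⟩
    rw [← mainFinrank r]
    exact finrank_le_of_inj (mainZ (X.piece.add Q).lin) (mainE 9 (3 + r)) (mainE_inj _) W
      fun u hu => mem_mainZ.mpr ((isCocycle_close _ u).mp (hW u hu))
  · rintro u ⟨p, rfl⟩
    exact (isCocycle_close _ _).mpr (mainPhi_coc Q hQ hc p)
  · rintro u ⟨p, rfl⟩ hu
    rw [form_close]
    refine mainPhi_pos Q hQ hpos p ?_
    rintro rfl
    exact hu (map_zero _)

/-- `negIndex ≤ 46 + 18 r`: use `count` with the positive definite subspace above, the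
coboundaries of `glue (w, 0)` and the complement from `num_rel`:
`dim W + (50 + 18 r) + 6 + 6 ≤ 18 * (2 * (3 + r)) = 108 + 36 r`. -/
theorem negIndex_le {r : ℕ} (Q : Piece (SurfaceGroup 9) r)
    (hQ : ∀ γ w, fclass (Q.ρ γ w) = fclass w) :
    negIndex (X.piece.add Q).close ≤ 46 + 18 * r := by
  obtain ⟨c, hc, hpos⟩ := num_pos
  obtain ⟨c', hc'⟩ := num_rel
  have hS := mainSympAdd Q hQ
  refine csSup_le ⟨0, ⊥, ?_, ?_, ?_⟩ ?_
  · intro u hu
    rw [Submodule.mem_bot] at hu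
    rw [hu, isCocycle_close]
    exact mainCocZero _
  · intro u hu hne
    exact absurd ((Submodule.mem_bot ℝ).mp hu) hne
  · exact finrank_bot ℝ _
  · rintro m ⟨W, hW, hneg, rfl⟩
    have h1 := count (mainZ (X.piece.add Q).lin) (formB (X.piece.add Q).lin) (mainE 9 (3 + r))
      (mainE_inj _) W (LinearMap.range (mainPhi r c))
      (LinearMap.range (mainCob (X.piece.add Q).lin))
      (fun u hu => mem_mainZ.mpr ((isCocycle_close _ u).mp (hW u hu)))
      (by
        rintro u ⟨p, rfl⟩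
        exact mem_mainZ.mpr (mainPhi_coc Q hQ hc p))
      (by
        rintro u ⟨w, rfl⟩
        exact mem_mainZ.mpr (coc_cob _))
      (fun w hw hne => by
        rw [formB_apply, ← form_close]
        exact hneg w hw hne)
      (by
        rintro u ⟨p, rfl⟩ hu
        rw [formB_apply]
        refine mainPhi_pos Q hQ hpos p ?_
        rintro rfl
        exact hu (map_zero _))
      (by
        rintro u ⟨w, rfl⟩ z hz
        rw [formB_apply, formB_apply, mainCob_apply]
        exact ⟨formT_cob_left hS _ (mem_mainZ.mp hz), formT_cob_right hS _ (mem_mainZ.mp hz)⟩)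
      (LinearMap.range (mainC r c')) (mainC_compl Q hc')
    rw [mainPhi_finrank Q hQ hpos, mainCob_finrank, mainC_finrank hc', mainFinrank] at h1
    omega

theorem signature_ne {r : ℕ} (Q : Piece (SurfaceGroup 9) r)
    (hQ : ∀ γ w, fclass (Q.ρ γ w) = fclass w) :
    signature (X.piece.add Q).close ≠ 0 := by
  have h1 := posIndex_ge Q hQ
  have h2 := negIndex_le Q hQ
  rw [signature]
  omega

end H13SB
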