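import Pool.Agent.H13.SB.Sig.Main
import Pool.Agent.H13.SB.Num.NegDiag

/-!
# The signature is four
-/

namespace H13SB

variable {n r : ℕ}

/-- An antisymplectic involution. -/
def conjz (n : ℕ) : (Gen n → ℝ) →ₗ[ℝ] (Gen n → ℝ) where
  toFun v := fun x => if x.2 then -v x else v x
  map_add' v w := by
    funext x
    simp only [Pi.add_apply]
    split_ifs
    · ring
    · rfl
  map_smul' a v := by
    funext x
    simp only [Pi.smul_apply, smul_eq_mul, RingHom.id_apply]
    split_ifs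
    · ring
    · rfl

theorem omega_conjz (v w : Gen n → ℝ) : omega (conjz n v) (conjz n w) = -omega v w := by
  rw [omega, omega, ← Finset.sum_neg_distrib]
  refine Finset.sum_congr rfl fun i _ => ?_
  simp only [conjz, LinearMap.coe_mk, AddHom.coe_mk, if_true, Bool.false_eq_true, if_false]
  ring

/-- The glued cocycles. -/
noncomputable def mainPsi (r : ℕ) (c : Fin 46 → SurfaceGroup 9 → Gen 3 → ℝ) :
    ((Fin 46 → ℝ) × (Fin 9 → Gen r → ℝ)) →ₗ[ℝ] (SurfaceGroup 9 → Gen (3 + r) → ℝ) where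
  toFun p := fun γ => glue 3 r ((∑ k, p.1 k • c k) γ, conjz r (homz 9 r p.2 γ))
  map_add' p q := by
    funext γ
    rw [Pi.add_apply, ← map_add]
    congr 1
    refine Prod.ext ?_ ?_
    · simp only [Prod.fst_add, Pi.add_apply, add_smul, Finset.sum_add_distrib]
    · simp only [Prod.snd_add, map_add, Pi.add_apply]
  map_smul' a p := by
    funext γ
    rw [RingHom.id_apply, Pi.smul_apply, ← map_smul]
    congr 1
    refine Prod.ext ?_ ?_
    · have h1 : ∑ k, (a • p).1 k • c k = a • ∑ k, p.1 k • c k := by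
        rw [Finset.smul_sum]
        exact Finset.sum_congr rfl fun k _ => by
          rw [Prod.smul_fst, Pi.smul_apply, smul_eq_mul, mul_smul]
      rw [h1]
      rfl
    · simp only [Prod.smul_snd, map_smul, Pi.smul_apply]

theorem mainPsi_apply (c : Fin 46 → SurfaceGroup 9 → Gen 3 → ℝ)
    (p : (Fin 46 → ℝ) × (Fin 9 → Gen r → ℝ)) :
    mainPsi r c p = fun γ => glue 3 r ((∑ k, p.1 k • c k) γ, conjz r (homz 9 r p.2 γ)) := rfl

theorem mainCocHomzn (Q : Piece (SurfaceGroup 9) r) (hQ : ∀ γ w, fclass (Q.ρ γ w) = fclass w)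
    (z : Fin 9 → Gen r → ℝ) : Coc Q.lin (fun γ => conjz r (homz 9 r z γ)) := by
  intro x y
  change conjz r (homz 9 r z (x * y)) = conjz r (homz 9 r z x) + Q.lin x (conjz r (homz 9 r z y))
  rw [lin_triv Q hQ x, homz_mul, map_add]
  rfl

theorem mainPsi_coc (Q : Piece (SurfaceGroup 9) r) (hQ : ∀ γ w, fclass (Q.ρ γ w) = fclass w)
    {c : Fin 46 → SurfaceGroup 9 → Gen 3 → ℝ} (hc : ∀ k, Coc X.piece.lin (c k))
    (p : (Fin 46 → ℝ) × (Fin 9 → Gen r → ℝ)) :
    Coc (X.piece.add Q).lin (mainPsi r c p) := by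
  rw [mainPsi_apply]
  exact coc_glue (mainCocSum hc p.1) (mainCocHomzn Q hQ p.2)

theorem mainFormTrivn (Q : Piece (SurfaceGroup 9) r) (hQ : ∀ γ w, fclass (Q.ρ γ w) = fclass w)
    (z : Fin 9 → Gen r → ℝ) :
    formT Q.lin (fun γ => conjz r (homz 9 r z γ)) (fun γ => conjz r (homz 9 r z γ)) =
      -(2 * ∑ i, ∑ x, (z i x) ^ 2) := by
  rw [← mainFormTriv Q hQ, ← neg_eq_iff_eq_neg]
  have h1 : formT Q.lin (fun γ => conjz r (homz 9 r z γ)) (fun γ => conjz r (homz 9 r z γ)) =
      fundEval (fun x y => (-1 : ℝ) * omega (homz 9 r z x) (Q.lin x (homz 9 r z y))) := by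
    unfold formT
    congr 1
    funext x y
    rw [lin_triv Q hQ x]
    change omega (conjz r (homz 9 r z x)) (conjz r (homz 9 r z y)) = _
    rw [omega_conjz, neg_one_mul]
    rfl
  have h2 : fundEval (fun x y => (-1 : ℝ) * omega (homz 9 r z x) (Q.lin x (homz 9 r z y))) =
      -fundEval (fun x y => omega (homz 9 r z x) (Q.lin x (homz 9 r z y))) := by
    have h3 := formT_smul_left (T := Q.lin) (-1 : ℝ) (homz 9 r z) (homz 9 r z)
    have h4 : formT Q.lin ((-1 : ℝ) • homz 9 r z) (homz 9 r z) =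
        fundEval (fun x y => (-1 : ℝ) * omega (homz 9 r z x) (Q.lin x (homz 9 r z y))) := by
      unfold formT
      congr 1
      funext x y
      rw [Pi.smul_apply, omega_smul_left]
    rw [← h4, h3, smul_eq_mul, neg_one_mul]
    rfl
  rw [h1, h2, neg_neg]
  rfl

theorem mainPsi_neg (Q : Piece (SurfaceGroup 9) r) (hQ : ∀ γ w, fclass (Q.ρ γ w) = fclass w)
    {c : Fin 46 → SurfaceGroup 9 → Gen 3 → ℝ}
    (hneg : ∀ t : Fin 46 → ℝ, t ≠ 0 →
      formT X.piece.lin (∑ k, t k • c k) (∑ k, t k • c k) < 0)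
    (p : (Fin 46 → ℝ) × (Fin 9 → Gen r → ℝ)) (hp : p ≠ 0) :
    formT (X.piece.add Q).lin (mainPsi r c p) (mainPsi r c p) < 0 := by
  rw [mainPsi_apply, formT_glue, mainFormTrivn Q hQ]
  have h2 : (0 : ℝ) ≤ ∑ i, ∑ x, (p.2 i x) ^ 2 :=
    Finset.sum_nonneg fun i _ => Finset.sum_nonneg fun x _ => sq_nonneg _
  rcases eq_or_ne p.1 0 with h1 | h1
  · have h3 : p.2 ≠ 0 := fun h3 => hp (Prod.ext h1 h3)
    have h4 : formT X.piece.lin (∑ k, p.1 k • c k) (∑ k, p.1 k • c k) = 0 := by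
      have h5 : ∑ k, p.1 k • c k = 0 := by
        rw [h1]
        simp only [Pi.zero_apply, zero_smul, Finset.sum_const_zero]
      rw [h5, ← formB_apply, map_zero]
    have h6 : (0 : ℝ) < ∑ i, ∑ x, (p.2 i x) ^ 2 := by
      obtain ⟨i, hi⟩ := Function.ne_iff.mp h3
      obtain ⟨x, hx⟩ := Function.ne_iff.mp hi
      refine Finset.sum_pos' (fun i _ => Finset.sum_nonneg fun x _ => sq_nonneg _)
        ⟨i, Finset.mem_univ _, ?_⟩
      refine Finset.sum_pos' (fun x _ => sq_nonneg _) ⟨x, Finset.mem_univ _, ?_⟩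
      exact lt_of_le_of_ne (sq_nonneg _) (Ne.symm (pow_ne_zero 2 hx))
    rw [h4]
    linarith
  · have h3 := hneg p.1 h1
    linarith

theorem mainPsi_inj (Q : Piece (SurfaceGroup 9) r) (hQ : ∀ γ w, fclass (Q.ρ γ w) = fclass w)
    {c : Fin 46 → SurfaceGroup 9 → Gen 3 → ℝ}
    (hneg : ∀ t : Fin 46 → ℝ, t ≠ 0 →
      formT X.piece.lin (∑ k, t k • c k) (∑ k, t k • c k) < 0) :
    Function.Injective (mainPsi r c) := by
  rw [injective_iff_map_eq_zero]
  intro p hp
  by_contra hne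
  have h1 := mainPsi_neg Q hQ hneg p hne
  rw [hp, ← formB_apply, map_zero] at h1
  exact lt_irrefl _ h1

theorem mainPsi_finrank (Q : Piece (SurfaceGroup 9) r)
    (hQ : ∀ γ w, fclass (Q.ρ γ w) = fclass w)
    {c : Fin 46 → SurfaceGroup 9 → Gen 3 → ℝ}
    (hneg : ∀ t : Fin 46 → ℝ, t ≠ 0 →
      formT X.piece.lin (∑ k, t k • c k) (∑ k, t k • c k) < 0) :
    Module.finrank ℝ (LinearMap.range (mainPsi r c)) = 46 + 18 * r := by
  rw [LinearMap.finrank_range_of_inj (mainPsi_inj Q hQ hneg), Module.finrank_prod,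
    Module.finrank_fintype_fun_eq_card, Module.finrank_pi_fintype]
  simp only [Module.finrank_fintype_fun_eq_card, Finset.sum_const, Finset.card_univ,
    Fintype.card_prod, Fintype.card_fin, Fintype.card_bool, smul_eq_mul]
  ring

/-- `negIndex ≥ 46 + 18 r`. -/
theorem negIndex_ge {r : ℕ} (Q : Piece (SurfaceGroup 9) r)
    (hQ : ∀ γ w, fclass (Q.ρ γ w) = fclass w) :
    46 + 18 * r ≤ negIndex (X.piece.add Q).close := by
  obtain ⟨c, hc, hneg⟩ := Num.num_neg
  refine le_csSup ?_ ⟨LinearMap.range (mainPsi r c), ?_, ?_, mainPsi_finrank Q hQ hneg⟩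
  · refine ⟨108 + 36 * r, ?_⟩
    rintro m ⟨W, hW, -, rfl⟩
    rw [← mainFinrank r]
    exact finrank_le_of_inj (mainZ (X.piece.add Q).lin) (mainE 9 (3 + r)) (mainE_inj _) W
      fun u hu => mem_mainZ.mpr ((isCocycle_close _ u).mp (hW u hu))
  · rintro u ⟨p, rfl⟩
    exact (isCocycle_close _ _).mpr (mainPsi_coc Q hQ hc p)
  · rintro u ⟨p, rfl⟩ hu
    rw [form_close]
    refine mainPsi_neg Q hQ hneg p ?_
    rintro rfl
    exact hu (map_zero _)

/-- `posIndex ≤ 50 + 18 r`. -/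
theorem posIndex_le {r : ℕ} (Q : Piece (SurfaceGroup 9) r)
    (hQ : ∀ γ w, fclass (Q.ρ γ w) = fclass w) :
    posIndex (X.piece.add Q).close ≤ 50 + 18 * r := by
  obtain ⟨c, hc, hneg⟩ := Num.num_neg
  obtain ⟨c', hc'⟩ := num_rel
  have hS := mainSympAdd Q hQ
  refine csSup_le ⟨0, ⊥, ?_, ?_, ?_⟩ ?_
  · intro u hu
    rw [Submodule.mem_bot] at hu
    rw [hu, isCocycle_close]
    exact mainCocZero _
  · intro u hu hne
    exact absurd ((Submodule.mem_bot ℝ).mp hu) hne
  · exact finrank_bot ℝ _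
  · rintro m ⟨W, hW, hpos, rfl⟩
    have h1 := count (mainZ (X.piece.add Q).lin) (formB (X.piece.add Q).lin) (mainE 9 (3 + r))
      (mainE_inj _) (LinearMap.range (mainPsi r c)) W
      (LinearMap.range (mainCob (X.piece.add Q).lin))
      (by
        rintro u ⟨p, rfl⟩
        exact mem_mainZ.mpr (mainPsi_coc Q hQ hc p))
      (fun u hu => mem_mainZ.mpr ((isCocycle_close _ u).mp (hW u hu)))
      (by
        rintro u ⟨w, rfl⟩
        exact mem_mainZ.mpr (coc_cob _))
      (by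
        rintro u ⟨p, rfl⟩ hu
        rw [formB_apply]
        refine mainPsi_neg Q hQ hneg p ?_
        rintro rfl
        exact hu (map_zero _))
      (fun w hw hne => by
        rw [formB_apply, ← form_close]
        exact hpos w hw hne)
      (by
        rintro u ⟨w, rfl⟩ z hz
        rw [formB_apply, formB_apply, mainCob_apply]
        exact ⟨formT_cob_left hS _ (mem_mainZ.mp hz), formT_cob_right hS _ (mem_mainZ.mp hz)⟩)
      (LinearMap.range (mainC r c')) (mainC_compl Q hc')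
    rw [mainPsi_finrank Q hQ hneg, mainCob_finrank, mainC_finrank hc', mainFinrank] at h1
    omega

theorem signature_eq {r : ℕ} (Q : Piece (SurfaceGroup 9) r)
    (hQ : ∀ γ w, fclass (Q.ρ γ w) = fclass w) :
    signature (X.piece.add Q).close = 4 := by
  have h1 := posIndex_ge Q hQ
  have h2 := negIndex_le Q hQ
  have h3 := posIndex_le Q hQ
  have h4 := negIndex_ge Q hQ
  rw [signature]
  omega

end H13SB
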