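import Pool.Agent.H13.SB.Class

/-!
# Linear algebra of the cup product form: definitions
-/

namespace H13SB

open Matrix

variable {Γ : Type} [Group Γ] {g k h n : ℕ}

/-! ### Matrices of automorphisms -/

theorem fclass_map (f : FreeGroup (Gen g) →* FreeGroup (Gen k)) (w : FreeGroup (Gen g))
    (x : Gen k) :
    fclass (f w) x = ∑ y, fclass (f (FreeGroup.of y)) x * fclass w y := by
  induction w using FreeGroup.induction_on with
  | C1 => simp [fclass_one]
  | of y =>
    simp [fclass_of]
  | inv_of y ih =>
    rw [map_inv, fclass_inv, fclass_inv, Pi.neg_apply, ih, ← Finset.sum_neg_distrib]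
    exact Finset.sum_congr rfl fun z _ => by rw [Pi.neg_apply]; ring
  | mul v w hv hw =>
    rw [map_mul, fclass_mul, fclass_mul, Pi.add_apply, hv, hw, ← Finset.sum_add_distrib]
    exact Finset.sum_congr rfl fun z _ => by rw [Pi.add_apply]; ring

/-- The matrix of an automorphism of the free group on `ℤ^{2g}`. -/
def MT : MulAut (FreeGroup (Gen g)) →* Matrix (Gen g) (Gen g) ℤ where
  toFun f := Matrix.of fun x y => fclass (f (FreeGroup.of y)) x
  map_one' := by
    ext x y
    rw [Matrix.of_apply, MulAut.one_apply, fclass_of, Matrix.one_apply]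
    simp only [eq_comm]
  map_mul' f f' := by
    ext x y
    rw [Matrix.of_apply, MulAut.mul_apply, Matrix.mul_apply]
    exact fclass_map f.toMonoidHom (f' (FreeGroup.of y)) x

theorem MT_apply (f : MulAut (FreeGroup (Gen g))) (x y : Gen g) :
    MT f x y = fclass (f (FreeGroup.of y)) x := rfl

/-- The linear representation of a piece on `H_1` with integer coefficients. -/
def Piece.mat (P : Piece Γ g) : Γ →* Matrix (Gen g) (Gen g) ℤ := MT.comp P.ρ

/-- The same with real coefficients. -/
noncomputable def Piece.lin (P : Piece Γ g) : Γ →* Module.End ℝ (Gen g → ℝ) where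
  toFun γ := Matrix.mulVecLin ((P.mat γ).map (Int.cast : ℤ → ℝ))
  map_one' := by
    rw [map_one, Matrix.map_one _ Int.cast_zero Int.cast_one, Matrix.mulVecLin_one]
    rfl
  map_mul' x y := by
    rw [map_mul]
    have h := Matrix.map_mul (L := P.mat x) (M := P.mat y) (f := Int.castRingHom ℝ)
    simp only [Int.coe_castRingHom] at h
    rw [h, Matrix.mulVecLin_mul]
    rfl

theorem Piece.lin_apply (P : Piece Γ g) (γ : Γ) (v : Gen g → ℝ) (x : Gen g) :
    P.lin γ v x = ∑ y, (fclass (P.ρ γ (FreeGroup.of y)) x : ℝ) * v y := rfl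

theorem act_close_lin (P : Piece Γ g) (γ : Γ) (v : Gen g → ℝ) :
    act (P.close γ) v = P.lin γ v := by
  funext x
  rw [act_close, Piece.lin_apply]

/-! ### Cocycles of a linear representation -/

/-- Cocycles. -/
def Coc (T : SurfaceGroup h →* Module.End ℝ (Gen n → ℝ)) (u : SurfaceGroup h → Gen n → ℝ) :
    Prop := ∀ x y, u (x * y) = u x + T x (u y)

/-- The representation preserves the symplectic form. -/
def Symp (T : SurfaceGroup h →* Module.End ℝ (Gen n → ℝ)) : Prop :=
  ∀ x v w, omega (T x v) (T x w) = omega v w

/-- The cup product form. -/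
def formT (T : SurfaceGroup h →* Module.End ℝ (Gen n → ℝ))
    (u v : SurfaceGroup h → Gen n → ℝ) : ℝ :=
  fundEval fun x y => omega (u x) (T x (v y))

theorem form_close (P : Piece (SurfaceGroup h) g) (u v : SurfaceGroup h → Gen g → ℝ) :
    form P.close u v = formT P.lin u v := by
  simp only [form, formT, act_close_lin]

theorem isCocycle_close (P : Piece (SurfaceGroup h) g) (u : SurfaceGroup h → Gen g → ℝ) :
    IsCocycle P.close u ↔ Coc P.lin u := by
  simp only [IsCocycle, Coc, act_close_lin]

/-! ### Letters and walks -/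

/-- The letters of the relator: `(x, true)` is `x` and `(x, false)` is `x⁻¹`. -/
def lets (h : ℕ) : List (Gen h × Bool) :=
  (List.ofFn fun i : Fin h =>
    [((i, false), true), ((i, true), true), ((i, false), false), ((i, true), false)]).flatten

/-- The value of a letter. -/
def lv (s : Gen h × Bool) : SurfaceGroup h := if s.2 then sgen s.1 else (sgen s.1)⁻¹

/-- The values of a cocycle with values `x` on the generators along a path. -/
noncomputable def walk (T : SurfaceGroup h →* Module.End ℝ (Gen n → ℝ))
    (x : Gen h → Gen n → ℝ) : SurfaceGroup h → (Gen n → ℝ) → List (Gen h × Bool) → (Gen n → ℝ)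
  | _, U, [] => U
  | p, U, (y, true) :: l => walk T x (p * sgen y) (U + T p (x y)) l
  | p, U, (y, false) :: l => walk T x (p * (sgen y)⁻¹) (U - T (p * (sgen y)⁻¹) (x y)) l

/-- The values of a function along a path. -/
def vals (u : SurfaceGroup h → Gen n → ℝ) :
    SurfaceGroup h → List (Gen h × Bool) → List (Gen n → ℝ)
  | p, [] => [u p]
  | p, s :: l => u p :: vals u (p * lv s) l

/-- The pairing of two lists of values. -/
def pairR : List (Gen n → ℝ) → List (Gen n → ℝ) → ℝ
  | U :: U' :: Us, V :: V' :: Vs => omega U (V' - V) + pairR (U' :: Us) (V' :: Vs)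
  | _, _ => 0

end H13SB
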