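import Pool.Agent.H13.SB.Sig.Base

/-!
# Cocycles and the cup product form
-/

namespace H13SB

variable {h n : ℕ} {T : SurfaceGroup h →* Module.End ℝ (Gen n → ℝ)}
  {u v : SurfaceGroup h → Gen n → ℝ}

theorem omega_add_left (a b c : Gen n → ℝ) : omega (a + b) c = omega a c + omega b c := by
  unfold omega
  rw [← Finset.sum_add_distrib]
  refine Finset.sum_congr rfl fun i _ => ?_
  simp only [Pi.add_apply]
  ring

theorem omega_add_right (a b c : Gen n → ℝ) : omega a (b + c) = omega a b + omega a c := by
  unfold omega
  rw [← Finset.sum_add_distrib]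
  refine Finset.sum_congr rfl fun i _ => ?_
  simp only [Pi.add_apply]
  ring

theorem omega_smul_left (r : ℝ) (a b : Gen n → ℝ) : omega (r • a) b = r * omega a b := by
  unfold omega
  rw [Finset.mul_sum]
  refine Finset.sum_congr rfl fun i _ => ?_
  simp only [Pi.smul_apply, smul_eq_mul]
  ring

theorem omega_smul_right (r : ℝ) (a b : Gen n → ℝ) : omega a (r • b) = r * omega a b := by
  unfold omega
  rw [Finset.mul_sum]
  refine Finset.sum_congr rfl fun i _ => ?_
  simp only [Pi.smul_apply, smul_eq_mul]
  ring

theorem omega_neg_left (a b : Gen n → ℝ) : omega (-a) b = -omega a b := by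
  rw [← neg_one_smul ℝ a, omega_smul_left]
  ring

theorem omega_neg_right (a b : Gen n → ℝ) : omega a (-b) = -omega a b := by
  rw [← neg_one_smul ℝ b, omega_smul_right]
  ring

theorem omega_sub_left (a b c : Gen n → ℝ) : omega (a - b) c = omega a c - omega b c := by
  rw [sub_eq_add_neg, omega_add_left, omega_neg_left]
  ring

theorem omega_sub_right (a b c : Gen n → ℝ) : omega a (b - c) = omega a b - omega a c := by
  rw [sub_eq_add_neg, omega_add_right, omega_neg_right]
  ring

theorem omega_zero_left (a : Gen n → ℝ) : omega 0 a = 0 := by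
  have h1 := omega_smul_left 0 a a
  rwa [zero_smul, zero_mul] at h1

theorem omega_zero_right (a : Gen n → ℝ) : omega a 0 = 0 := by
  have h1 := omega_smul_right 0 a a
  rwa [zero_smul, zero_mul] at h1

theorem omega_swap (a b : Gen n → ℝ) : omega a b = -omega b a := by
  unfold omega
  rw [← Finset.sum_neg_distrib]
  refine Finset.sum_congr rfl fun i _ => ?_
  ring

theorem Coc.one (hu : Coc T u) : u 1 = 0 := by
  have h1 := hu 1 1
  rw [mul_one, map_one, Module.End.one_apply] at h1
  exact left_eq_add.mp h1

theorem Coc.inv (hu : Coc T u) (x : SurfaceGroup h) : u x⁻¹ = -(T x⁻¹ (u x)) := by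
  have h1 := hu x⁻¹ x
  rw [inv_mul_cancel, hu.one] at h1
  rw [eq_neg_iff_add_eq_zero]
  exact h1.symm

/-- A cocycle is determined by its values on the generators. -/
theorem Coc.ext (hu : Coc T u) (hv : Coc T v) (huv : ∀ x, u (sgen x) = v (sgen x)) :
    u = v := by
  obtain ⟨H, hH⟩ : ∃ H : Subgroup (SurfaceGroup h), ∀ x, x ∈ H ↔ u x = v x := by
    refine ⟨{ carrier := {x | u x = v x}
              one_mem' := ?_
              mul_mem' := ?_
              inv_mem' := ?_ }, fun x => Iff.rfl⟩
    · intro x y hx hy
      change u x = v x at hx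
      change u y = v y at hy
      change u (x * y) = v (x * y)
      rw [hu x y, hv x y, hx, hy]
    · change u 1 = v 1
      rw [hu.one, hv.one]
    · intro x hx
      change u x = v x at hx
      change u x⁻¹ = v x⁻¹
      rw [hu.inv, hv.inv, hx]
  have h1 : H = ⊤ := by
    rw [eq_top_iff, ← PresentedGroup.closure_range_of, Subgroup.closure_le]
    rintro _ ⟨x, rfl⟩
    exact (hH _).2 (huv x)
  funext x
  rw [← hH, h1]
  exact Subgroup.mem_top x

theorem fundEval_add (c c' : SurfaceGroup h → SurfaceGroup h → ℝ) :
    fundEval (fun x y => c x y + c' x y) = fundEval c + fundEval c' := by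
  unfold fundEval
  have h1 : ∀ (l : List (SurfaceGroup h)) (x : SurfaceGroup h),
      chainEval (fun x y => c x y + c' x y) x l = chainEval c x l + chainEval c' x l := by
    intro l
    induction l with
    | nil => intro x; simp [chainEval]
    | cons s l ih =>
      intro x
      simp only [chainEval, ih]
      ring
  rw [h1, Finset.sum_add_distrib]
  ring

theorem fundEval_smul (a : ℝ) (c : SurfaceGroup h → SurfaceGroup h → ℝ) :
    fundEval (fun x y => a * c x y) = a * fundEval c := by
  unfold fundEval
  have h1 : ∀ (l : List (SurfaceGroup h)) (x : SurfaceGroup h),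
      chainEval (fun x y => a * c x y) x l = a * chainEval c x l := by
    intro l
    induction l with
    | nil => intro x; simp [chainEval]
    | cons s l ih =>
      intro x
      simp only [chainEval, ih]
      ring
  rw [h1, ← Finset.mul_sum]
  ring

theorem chainEval_delta {G : Type} [Group G] (e : G → ℝ) (l : List G) (x : G) :
    chainEval (fun x y => e x + e y - e (x * y)) x l = e x + (l.map e).sum - e (x * l.prod) := by
  induction l generalizing x with
  | nil => simp [chainEval]
  | cons s l ih =>
    simp only [chainEval, ih, List.map_cons, List.sum_cons, List.prod_cons, mul_assoc]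
    ring

theorem prod_letters : (letters h).prod = 1 := by
  have h1 : PresentedGroup.mk ({surfRel h} : Set (FreeGroup (Gen h))) (surfRel h) = 1 :=
    PresentedGroup.one_of_mem (Set.mem_singleton _)
  have h2 := map_list_prod (PresentedGroup.mk ({surfRel h} : Set (FreeGroup (Gen h))))
    (List.ofFn fun i : Fin h => cm (FreeGroup.of (i, false)) (FreeGroup.of (i, true)))
  change PresentedGroup.mk ({surfRel h} : Set (FreeGroup (Gen h))) (surfRel h) = _ at h2
  rw [← h1, h2, letters, List.prod_flatten, List.map_ofFn, List.map_ofFn]
  congr 2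

theorem sum_letters (e : SurfaceGroup h → ℝ) :
    ((letters h).map e).sum = ∑ x : Gen h, (e (sgen x) + e (sgen x)⁻¹) := by
  rw [letters, List.map_flatten, List.sum_flatten, List.map_ofFn, List.map_ofFn, List.sum_ofFn,
    Fintype.sum_prod_type]
  refine Finset.sum_congr rfl fun i _ => ?_
  simp only [Function.comp_apply, List.map_cons, List.map_nil, List.sum_cons, List.sum_nil,
    Fintype.sum_bool]
  ring

/-- The fundamental cycle vanishes on coboundaries: use that the product of the letters is `1`
and that the letters are the generators and their inverses. -/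
theorem fundEval_delta (e : SurfaceGroup h → ℝ) (he : e 1 = 0) :
    fundEval (fun x y => e x + e y - e (x * y)) = 0 := by
  unfold fundEval
  rw [chainEval_delta, prod_letters, sum_letters, mul_one, he]
  have h1 : ∀ x : Gen h, e (sgen x)⁻¹ + e (sgen x) - e ((sgen x)⁻¹ * sgen x) =
      e (sgen x) + e (sgen x)⁻¹ := by
    intro x
    rw [inv_mul_cancel, he]
    ring
  rw [Finset.sum_congr rfl fun x _ => h1 x]
  ring

/-- Use `e x = ω(u x, v x)`. -/
theorem formT_symm (hT : Symp T) (hu : Coc T u) (hv : Coc T v) :
    formT T u v = formT T v u := by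
  have h1 : fundEval (fun x y : SurfaceGroup h => omega (u x) (v x) + omega (u y) (v y) -
      omega (u (x * y)) (v (x * y))) = 0 :=
    fundEval_delta (fun x => omega (u x) (v x)) (by
      rw [hu.one, omega_zero_left])
  have h2 : (fun x y : SurfaceGroup h => omega (v x) (T x (u y))) = fun x y =>
      omega (u x) (T x (v y)) + (omega (u x) (v x) + omega (u y) (v y) -
      omega (u (x * y)) (v (x * y))) := by
    funext x y
    rw [hu x y, hv x y]
    simp only [omega_add_left, omega_add_right]
    rw [hT x (u y) (v y), omega_swap (T x (u y)) (v x)]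
    ring
  unfold formT
  rw [h2, fundEval_add, h1, add_zero]

/-- The coboundary of `w`. -/
noncomputable def cob (T : SurfaceGroup h →* Module.End ℝ (Gen n → ℝ)) :
    (Gen n → ℝ) →ₗ[ℝ] (SurfaceGroup h → Gen n → ℝ) where
  toFun w := fun x => T x w - w
  map_add' := by
    intro a b
    funext x
    simp only [map_add, Pi.add_apply]
    abel
  map_smul' := by
    intro a b
    funext x
    simp only [map_smul, Pi.smul_apply, RingHom.id_apply, smul_sub]

theorem coc_cob (w : Gen n → ℝ) : Coc T (cob T w) := by
  intro x y
  change T (x * y) w - w = T x w - w + T x (T y w - w)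
  rw [map_mul, Module.End.mul_apply, map_sub]
  abel

/-- Use `e x = ω(w, v x)`. -/
theorem formT_cob_left (hT : Symp T) (w : Gen n → ℝ) (hv : Coc T v) :
    formT T (cob T w) v = 0 := by
  have h1 : fundEval (fun x y : SurfaceGroup h => omega w (v x) + omega w (v y) -
      omega w (v (x * y))) = 0 :=
    fundEval_delta (fun x => omega w (v x)) (by
      rw [hv.one, omega_zero_right])
  rw [← h1]
  unfold formT
  congr 1
  funext x y
  change omega (T x w - w) (T x (v y)) = _
  rw [hv x y, omega_sub_left, hT, omega_add_right]
  ring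

/-- Use `e x = ω(u x, T x w)`. -/
theorem formT_cob_right (hT : Symp T) (w : Gen n → ℝ) (hu : Coc T u) :
    formT T u (cob T w) = 0 := by
  have h1 : fundEval (fun x y : SurfaceGroup h => omega (u x) (T x w) + omega (u y) (T y w) -
      omega (u (x * y)) (T (x * y) w)) = 0 :=
    fundEval_delta (fun x => omega (u x) (T x w)) (by
      rw [hu.one, omega_zero_left])
  have h2 := fundEval_smul (-1) (fun x y : SurfaceGroup h => omega (u x) (T x w) +
    omega (u y) (T y w) - omega (u (x * y)) (T (x * y) w))
  rw [h1, mul_zero] at h2
  rw [← h2]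
  unfold formT
  congr 1
  funext x y
  change omega (u x) (T x (T y w - w)) = _
  rw [hu x y, map_mul, Module.End.mul_apply, map_sub, omega_sub_right, omega_add_left, hT]
  ring

theorem formT_add_left (a a' b : SurfaceGroup h → Gen n → ℝ) :
    formT T (a + a') b = formT T a b + formT T a' b := by
  unfold formT
  rw [← fundEval_add]
  congr 1
  funext x y
  rw [Pi.add_apply, omega_add_left]

theorem formT_smul_left (r : ℝ) (a b : SurfaceGroup h → Gen n → ℝ) :
    formT T (r • a) b = r • formT T a b := by
  unfold formT
  rw [smul_eq_mul, ← fundEval_smul]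
  congr 1
  funext x y
  rw [Pi.smul_apply, omega_smul_left]

theorem formT_add_right (a b b' : SurfaceGroup h → Gen n → ℝ) :
    formT T a (b + b') = formT T a b + formT T a b' := by
  unfold formT
  rw [← fundEval_add]
  congr 1
  funext x y
  rw [Pi.add_apply, map_add, omega_add_right]

theorem formT_smul_right (r : ℝ) (a b : SurfaceGroup h → Gen n → ℝ) :
    formT T a (r • b) = r • formT T a b := by
  unfold formT
  rw [smul_eq_mul, ← fundEval_smul]
  congr 1
  funext x y
  rw [Pi.smul_apply, map_smul, omega_smul_right]

/-- The form as a bilinear form. -/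
noncomputable def formB (T : SurfaceGroup h →* Module.End ℝ (Gen n → ℝ)) :
    (SurfaceGroup h → Gen n → ℝ) →ₗ[ℝ] (SurfaceGroup h → Gen n → ℝ) →ₗ[ℝ] ℝ :=
  LinearMap.mk₂ ℝ (formT T) formT_add_left formT_smul_left formT_add_right formT_smul_right

theorem formB_apply (a b : SurfaceGroup h → Gen n → ℝ) : formB T a b = formT T a b := rfl

theorem letters_eq : letters h = (lets h).map lv := by
  rw [letters, lets, List.map_flatten, List.map_ofFn]
  congr 2

theorem chainEval_pairR (hv : Coc T v) (l : List (Gen h × Bool)) (p : SurfaceGroup h) :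
    chainEval (fun x y => omega (u x) (T x (v y))) p (l.map lv) =
      pairR (vals u p l) (vals v p l) := by
  induction l generalizing p with
  | nil => simp [chainEval, vals, pairR]
  | cons s l ih =>
    have h1 : ∀ w : SurfaceGroup h → Gen n → ℝ, ∃ r, vals w (p * lv s) l = w (p * lv s) :: r := by
      intro w
      cases l with
      | nil => exact ⟨[], rfl⟩
      | cons s' l' => exact ⟨_, rfl⟩
    simp only [List.map_cons, chainEval, vals, ih]
    obtain ⟨r, hr⟩ := h1 u
    obtain ⟨r', hr'⟩ := h1 v
    rw [hr, hr', pairR, hv p (lv s), add_sub_cancel_left]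

/-- The form in terms of the values along the path of the relator: `T p (v s) = v (p s) - v p`,
and `c(x⁻¹, x) = -ω(T x⁻¹ (u x), T x⁻¹ (v x)) = -ω(u x, v x)`. -/
theorem formT_eq_pairR (hT : Symp T) (hu : Coc T u) (hv : Coc T v) :
    formT T u v = pairR (vals u 1 (lets h)) (vals v 1 (lets h)) +
      ∑ x : Gen h, omega (u (sgen x)) (v (sgen x)) := by
  unfold formT fundEval
  rw [letters_eq, chainEval_pairR hv, sub_eq_add_neg, ← Finset.sum_neg_distrib]
  congr 1
  refine Finset.sum_congr rfl fun x _ => ?_
  change -(omega (u (sgen x)⁻¹) (T (sgen x)⁻¹ (v (sgen x)))) = _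
  rw [hu.inv, omega_neg_left, neg_neg, hT]

end H13SB
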